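import Pool.Agent.Helper65.AH.St

/-!
# Project AH (MP_1bacb5_al), module AC: asymptotic calculus of germs tangent to the identity
-/

set_option autoImplicit false

universe u

namespace Pool.Agent.Helper71.AH

open Filter Topology Set Pool.Agent.Helper58.RK Pool.Agent.Helper65.AH
open scoped commutatorElement

lemma tz (f : ℝ ≃o ℝ) (hf : f 0 = 0) : Tendsto f (𝓝[>] 0) (𝓝[>] 0) := by
  have h1 : Tendsto f (𝓝 0) (𝓝 0) := by
    have := f.continuous.tendsto 0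
    rwa [hf] at this
  refine tendsto_nhdsWithin_iff.2 ⟨h1.mono_left nhdsWithin_le_nhds, ?_⟩
  filter_upwards [self_mem_nhdsWithin] with x hx
  have h2 : f 0 < f x := f.strictMono hx
  rwa [hf] at h2

lemma inv0 (f : ℝ ≃o ℝ) (hf : f 0 = 0) : f⁻¹ 0 = 0 := by
  have h : f⁻¹ (f 0) = 0 := f.symm_apply_apply 0
  rwa [hf] at h

lemma pos_ev : ∀ᶠ x in 𝓝[>] (0 : ℝ), 0 < x := self_mem_nhdsWithin

lemma ratio (f : ℝ ≃o ℝ) (h : Asy f 1 0) : Tendsto (fun x => f x / x) (𝓝[>] 0) (𝓝 1) := by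
  have h1 := h.add_const 1
  rw [zero_add] at h1
  refine h1.congr' ?_
  filter_upwards [pos_ev] with x hx
  rw [Real.rpow_one, sub_div, div_self hx.ne']
  ring

/-- substitution of `y x ~ x` -/
lemma subst_pow {F : ℝ → ℝ} {s c : ℝ} (hF : Tendsto (fun x => F x / x ^ s) (𝓝[>] 0) (𝓝 c))
    {y : ℝ → ℝ} (hy : Tendsto y (𝓝[>] 0) (𝓝[>] 0))
    (hy1 : Tendsto (fun x => y x / x) (𝓝[>] 0) (𝓝 1)) :
    Tendsto (fun x => F (y x) / x ^ s) (𝓝[>] 0) (𝓝 c) := by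
  have h1 : Tendsto (fun x => F (y x) / (y x) ^ s) (𝓝[>] 0) (𝓝 c) := hF.comp hy
  have h2 : Tendsto (fun x => (y x / x) ^ s) (𝓝[>] 0) (𝓝 (1 ^ s)) :=
    hy1.rpow_const (Or.inl one_ne_zero)
  rw [Real.one_rpow] at h2
  have h3 := h1.mul h2
  rw [mul_one] at h3
  refine h3.congr' ?_
  filter_upwards [pos_ev, hy.eventually pos_ev] with x hx hyx
  rw [Real.div_rpow hyx.le hx.le]
  have := (Real.rpow_pos_of_pos hyx s).ne'
  field_simp

lemma subst_asy {f : ℝ ≃o ℝ} {s c : ℝ} (hF : Asy f s c)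
    {y : ℝ → ℝ} (hy : Tendsto y (𝓝[>] 0) (𝓝[>] 0))
    (hy1 : Tendsto (fun x => y x / x) (𝓝[>] 0) (𝓝 1)) :
    Tendsto (fun x => (f (y x) - y x) / x ^ s) (𝓝[>] 0) (𝓝 c) :=
  subst_pow (F := fun x => f x - x) hF hy hy1

theorem ac1 (f g : ℝ ≃o ℝ) (s a b : ℝ) (_hf : f 0 = 0) (hg : g 0 = 0)
    (hg1 : Asy g 1 0) (hfa : Asy f s a) (hgb : Asy g s b) : Asy (f * g) s (a + b) := by
  have h1 := subst_asy hfa (tz g hg) (ratio g hg1)
  refine (h1.add hgb).congr' ?_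
  filter_upwards [pos_ev] with x hx
  have h2 : (f * g) x = f (g x) := rfl
  rw [h2, ← add_div]
  congr 1
  ring

lemma ratio_inv (f : ℝ ≃o ℝ) (hf : f 0 = 0) (h : Asy f 1 0) :
    Tendsto (fun x => f⁻¹ x / x) (𝓝[>] 0) (𝓝 1) := by
  have h1 : Tendsto (fun x => f (f⁻¹ x) / f⁻¹ x) (𝓝[>] 0) (𝓝 1) :=
    (ratio f h).comp (tz f⁻¹ (inv0 f hf))
  have h2 := h1.inv₀ one_ne_zero
  rw [inv_one] at h2
  refine h2.congr' ?_
  filter_upwards [pos_ev] with x hx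
  have h3 : f (f⁻¹ x) = x := f.apply_symm_apply x
  rw [h3, inv_div]

theorem ac2 (f : ℝ ≃o ℝ) (s a : ℝ) (hf : f 0 = 0) (h1 : Asy f 1 0) (h : Asy f s a) :
    Asy f⁻¹ s (-a) := by
  have h2 := (subst_asy h (tz f⁻¹ (inv0 f hf)) (ratio_inv f hf h1)).neg
  refine h2.congr' ?_
  filter_upwards [pos_ev] with x hx
  have h3 : f (f⁻¹ x) = x := f.apply_symm_apply x
  rw [h3, ← neg_div]
  congr 1
  ring

theorem ac3 (f : ℝ ≃o ℝ) (s s' a : ℝ) (h : Asy f s a) (hs : s' < s) : Asy f s' 0 := by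
  have h1 : Tendsto (fun x : ℝ => x ^ (s - s')) (𝓝[>] 0) (𝓝 0) := by
    have h2 : ContinuousAt (fun x : ℝ => x ^ (s - s')) 0 :=
      Real.continuousAt_rpow_const 0 _ (Or.inr (by linarith))
    have h3 := h2.tendsto
    simp only [Real.zero_rpow (by linarith : s - s' ≠ 0)] at h3
    exact h3.mono_left nhdsWithin_le_nhds
  have h2 := Tendsto.mul h h1
  rw [mul_zero] at h2
  refine h2.congr' ?_
  filter_upwards [pos_ev] with x hx
  rw [Real.rpow_sub hx]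
  have h3 := (Real.rpow_pos_of_pos hx s).ne'
  have h4 := (Real.rpow_pos_of_pos hx s').ne'
  field_simp

theorem ac4 (f : ℝ ≃o ℝ) (s s' a a' : ℝ) (h : Asy f s a) (h' : Asy f s' a') (ha : a ≠ 0)
    (ha' : a' ≠ 0) : s = s' ∧ a = a' := by
  rcases lt_trichotomy s s' with h1 | h1 | h1
  · exact absurd (tendsto_nhds_unique h (ac3 f s' s a' h' h1)) ha
  · subst h1
    exact ⟨rfl, tendsto_nhds_unique h h'⟩
  · exact absurd (tendsto_nhds_unique h' (ac3 f s s' a h h1)) ha'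

/-- mean value theorem at `0+` -/
lemma mvt {F u' z : ℝ → ℝ} {k l c b : ℝ} (hd : ∀ᶠ x in 𝓝[>] (0 : ℝ), HasDerivAt F (u' x) x)
    (hu : Tendsto (fun x => u' x / x ^ k) (𝓝[>] 0) (𝓝 c)) (hz : Tendsto z (𝓝[>] 0) (𝓝[>] 0))
    (hz1 : Tendsto (fun x => z x / x) (𝓝[>] 0) (𝓝 1))
    (hzb : Tendsto (fun x => (z x - x) / x ^ (1 + l)) (𝓝[>] 0) (𝓝 b)) :
    Tendsto (fun x => (F (z x) - F x) / x ^ (1 + k + l)) (𝓝[>] 0) (𝓝 (c * b)) := by
  obtain ⟨δ, hδ, hsub⟩ := mem_nhdsGT_iff_exists_Ioo_subset.1 hd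
  have hlt : ∀ᶠ x in 𝓝[>] (0 : ℝ), x < δ := by
    have : Set.Iio δ ∈ 𝓝 (0 : ℝ) := Iio_mem_nhds hδ
    exact mem_nhdsWithin_of_mem_nhds this
  have hex : ∀ᶠ x in 𝓝[>] (0 : ℝ), ∃ ξ, (min x (z x) ≤ ξ ∧ ξ ≤ max x (z x)) ∧
      F (z x) - F x = u' ξ * (z x - x) := by
    filter_upwards [pos_ev, hlt, hz.eventually pos_ev, hz.eventually hlt] with x hx hxδ hzx hzδ
    have key : ∀ p q : ℝ, 0 < p → q < δ → p < q → ∃ ξ ∈ Ioo p q, u' ξ = (F q - F p) / (q - p) := by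
      intro p q hp hq hpq
      refine exists_hasDerivAt_eq_slope F u' hpq ?_ ?_
      · intro t ht
        have h1 : HasDerivAt F (u' t) t := hsub ⟨hp.trans_le ht.1, ht.2.trans_lt hq⟩
        exact h1.continuousAt.continuousWithinAt
      · intro t ht
        exact hsub ⟨hp.trans ht.1, ht.2.trans hq⟩
    rcases lt_trichotomy x (z x) with h1 | h1 | h1
    · obtain ⟨ξ, hξ, h2⟩ := key x (z x) hx hzδ h1
      refine ⟨ξ, ⟨(min_le_left _ _).trans hξ.1.le, hξ.2.le.trans (le_max_right _ _)⟩, ?_⟩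
      rw [h2, div_mul_cancel₀]
      linarith
    · refine ⟨x, ⟨min_le_left _ _, le_max_left _ _⟩, ?_⟩
      rw [← h1]
      ring
    · obtain ⟨ξ, hξ, h2⟩ := key (z x) x hzx hxδ h1
      refine ⟨ξ, ⟨(min_le_right _ _).trans hξ.1.le, hξ.2.le.trans (le_max_left _ _)⟩, ?_⟩
      rw [h2]
      have : x - z x ≠ 0 := by linarith
      field_simp
      ring
  obtain ⟨ξ, hξ⟩ := hex.choice
  have hξ1 : Tendsto (fun x => ξ x / x) (𝓝[>] 0) (𝓝 1) := by
    have hmin : Tendsto (fun x => min 1 (z x / x)) (𝓝[>] 0) (𝓝 1) := by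
      have := (tendsto_const_nhds (x := (1 : ℝ)) (f := 𝓝[>] (0 : ℝ))).min hz1
      rwa [min_self] at this
    have hmax : Tendsto (fun x => max 1 (z x / x)) (𝓝[>] 0) (𝓝 1) := by
      have := (tendsto_const_nhds (x := (1 : ℝ)) (f := 𝓝[>] (0 : ℝ))).max hz1
      rwa [max_self] at this
    refine tendsto_of_tendsto_of_tendsto_of_le_of_le' hmin hmax ?_ ?_
    · filter_upwards [hξ, pos_ev] with x hx hx0
      rw [le_div_iff₀ hx0]
      refine le_trans ?_ hx.1.1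
      rw [min_mul_of_nonneg _ _ hx0.le, one_mul, div_mul_cancel₀ _ hx0.ne']
    · filter_upwards [hξ, pos_ev] with x hx hx0
      rw [div_le_iff₀ hx0]
      refine le_trans hx.1.2 ?_
      rw [max_mul_of_nonneg _ _ hx0.le, one_mul, div_mul_cancel₀ _ hx0.ne']
  have hξ0 : Tendsto ξ (𝓝[>] 0) (𝓝[>] 0) := by
    have h0 : Tendsto (fun x : ℝ => x) (𝓝[>] 0) (𝓝 0) := tendsto_id.mono_left nhdsWithin_le_nhds
    have hz0 : Tendsto z (𝓝[>] 0) (𝓝 0) := hz.mono_right nhdsWithin_le_nhds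
    refine tendsto_nhdsWithin_iff.2 ⟨?_, ?_⟩
    · have hmin : Tendsto (fun x => min x (z x)) (𝓝[>] 0) (𝓝 0) := by
        have := h0.min hz0
        rwa [min_self] at this
      have hmax : Tendsto (fun x => max x (z x)) (𝓝[>] 0) (𝓝 0) := by
        have := h0.max hz0
        rwa [max_self] at this
      refine tendsto_of_tendsto_of_tendsto_of_le_of_le' hmin hmax ?_ ?_
      · filter_upwards [hξ] with x hx using hx.1.1
      · filter_upwards [hξ] with x hx using hx.1.2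
    · filter_upwards [hξ, pos_ev, hz.eventually pos_ev] with x hx hx0 hz0
      exact lt_of_lt_of_le (lt_min hx0 hz0) hx.1.1
  have h1 := (subst_pow hu hξ0 hξ1).mul hzb
  refine h1.congr' ?_
  filter_upwards [hξ, pos_ev] with x hx hx0
  rw [hx.2, show 1 + k + l = k + (1 + l) by ring, Real.rpow_add hx0 k (1 + l), mul_div_mul_comm]

theorem ac5 (f g : ℝ ≃o ℝ) (k l a b : ℝ) (hf : f 0 = 0) (hg : g 0 = 0) (hk : 0 < k) (hl : 0 < l)
    (hfa : Dep f k a) (hgb : Dep g l b) : Asy ⁅f, g⁆ (1 + k + l) ((k - l) * a * b) := by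
  have hf1 : Asy f 1 0 := ac3 f (1 + k) 1 a hfa.1 (by linarith)
  have hg1 : Asy g 1 0 := ac3 g (1 + l) 1 b hgb.1 (by linarith)
  have hfi : Asy f⁻¹ 1 0 := by
    have := ac2 f 1 0 hf hf1 hf1
    rwa [neg_zero] at this
  have hgi : Asy g⁻¹ 1 0 := by
    have := ac2 g 1 0 hg hg1 hg1
    rwa [neg_zero] at this
  have hfgi : Asy (f⁻¹ * g⁻¹) 1 0 := by
    have := ac1 f⁻¹ g⁻¹ 1 0 0 (inv0 f hf) (inv0 g hg) hgi hfi hgi
    rwa [add_zero] at this
  have hfg0 : (f⁻¹ * g⁻¹) 0 = 0 := by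
    have : (f⁻¹ * g⁻¹) 0 = f⁻¹ (g⁻¹ 0) := rfl
    rw [this, inv0 g hg, inv0 f hf]
  obtain ⟨hfA, u', hud, hul⟩ := hfa
  obtain ⟨hgA, v', hvd, hvl⟩ := hgb
  have h1 := mvt hud hul (tz g hg) (ratio g hg1) hgA
  have h2 := mvt hvd hvl (tz f hf) (ratio f hf1) hfA
  rw [show 1 + l + k = 1 + k + l by ring] at h2
  have h3 := h1.sub h2
  rw [show (1 + k) * a * b - (1 + l) * b * a = (k - l) * a * b by ring] at h3
  have h4 : Tendsto (fun x => ((f (g x) - g x - (f x - x)) - (g (f x) - f x - (g x - x))) /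
      x ^ (1 + k + l)) (𝓝[>] 0) (𝓝 ((k - l) * a * b)) := by
    refine h3.congr' ?_
    filter_upwards with x
    rw [← sub_div]
  have h5 := subst_pow (F := fun x => (f (g x) - g x - (f x - x)) - (g (f x) - f x - (g x - x)))
    h4 (tz _ hfg0) (ratio _ hfgi)
  refine h5.congr' ?_
  filter_upwards [pos_ev] with x hx
  have e1 : (⁅f, g⁆ : ℝ ≃o ℝ) x = f (g ((f⁻¹ * g⁻¹) x)) := rfl
  have e2 : g (f ((f⁻¹ * g⁻¹) x)) = x := by
    have : f ((f⁻¹ * g⁻¹) x) = g⁻¹ x := f.apply_symm_apply _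
    rw [this]
    exact g.apply_symm_apply x
  simp only [e2]
  rw [e1]
  congr 1
  ring

/-- Module AC. -/
theorem pAC : StAC := by
  refine ⟨fun f g s a b hf hg _ h1 h2 h3 => ac1 f g s a b hf hg h1 h2 h3,
    fun f s a hf _ h1 h2 => ac2 f s a hf h1 h2, ac3, ac4, ?_⟩
  intro f g k l a b hf hg hk hl h1 h2
  exact ac5 f g k l a b hf hg hk hl h1 h2

end Pool.Agent.Helper71.AH
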